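import Pool.Agent.K1H54.NU.Stm4
import Pool.Agent.K1H10.NU.Post

/-! # A continuum of Leray-Hopf solutions for the infinite system (piece NU-POSC) -/

open Set Filter Topology MeasureTheory
open scoped ENNReal

set_option autoImplicit false

namespace Pool.Agent.K1H39.NU

open Pool.Agent.K1H54.NU Pool.Agent.K1H10.NU

/-- uniqueness of the truncated solutions, from the continuous dependence -/
theorem uniq (h4 : S_CDP) (G : GS) (N : ℕ) (x y : ℝ → G.I ⊕ G.J → ℝ) (hx : G.Tr N x)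
    (hy : G.Tr N y) (h0 : x 0 = y 0) (t : ℝ) (ht : 0 ≤ t) : x t = y t := by
  classical
  funext i
  have hc := h4 G N (fun θ => if θ = 0 then y else x) (fun θ => by
    split_ifs
    · exact hy
    · exact hx) (fun i => by
    have : (fun θ : ℝ => (if θ = 0 then y else x) 0 i) = fun _ => x 0 i := by
      funext θ
      split_ifs
      · rw [h0]
      · rfl
    rw [this]
    exact continuous_const) t ht i
  have h1 : Tendsto (fun θ : ℝ => (if θ = 0 then y else x) t i) (𝓝[≠] 0) (𝓝 (y t i)) := by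
    have h2 := (hc.tendsto 0).mono_left (nhdsWithin_le_nhds (s := {0}ᶜ))
    rwa [if_pos rfl] at h2
  have h3 : Tendsto (fun θ : ℝ => (if θ = 0 then y else x) t i) (𝓝[≠] 0) (𝓝 (x t i)) := by
    refine tendsto_const_nhds.congr' ?_
    filter_upwards [self_mem_nhdsWithin] with θ hθ
    have hθ' : θ ≠ 0 := hθ
    rw [if_neg hθ']
  exact tendsto_nhds_unique h3 h1

/-- finite sums converge -/
theorem P_tendsto (G : GS) (n : ℕ) (X : ℕ → G.I ⊕ G.J → ℝ) (y : G.I ⊕ G.J → ℝ)
    (h : ∀ i, Tendsto (fun k => X k i) atTop (𝓝 (y i))) :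
    Tendsto (fun k => G.P n (X k)) atTop (𝓝 (G.P n y)) := by
  simp only [P_eq_sum]
  exact tendsto_finsetSum _ fun j _ => (h (Sum.inr j)).const_mul _

theorem t_POSC (h1 : S_TREX) (h2 : S_CPT2) (h3 : S_FIRE) (h4 : S_CDP) : S_POSC := by
  classical
  intro G n₁ M Λ a x₀ hF ha hD haM hen hZ hJ η hη
  have hen' : G.en x₀ ≠ ⊤ := ne_top_of_le_ne_top ENNReal.ofReal_ne_top hen
  have hres0 : ∀ k j, res G x₀ k (Sum.inr j) = 0 := by
    intro k j
    unfold res
    rw [hJ j]
    split_ifs <;> rfl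
  have hres_ev : ∀ i, ∀ᶠ k in atTop, res G x₀ k i = x₀ i := fun i => by
    filter_upwards [eventually_ge_atTop (G.s i)] with k hk
    unfold res
    rw [if_pos hk]
  -- the truncated solutions
  obtain ⟨wd, hwd⟩ : ∃ wd : ℕ → ℝ → G.I ⊕ G.J → ℝ,
    wd = fun k θ i => res G x₀ k i + pk G k (θ * (a k / 4)) i := ⟨_, rfl⟩
  have hW : ∀ k θ, ∃ W : ℝ → G.I ⊕ G.J → ℝ, W 0 = wd k θ ∧ G.Tr k W := fun k θ =>
    h1 G k (wd k θ) fun i hi => by
      have h4 : res G x₀ k i = 0 := if_neg (not_le.2 hi)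
      have h5 : pk G k (θ * (a k / 4)) i = 0 := by
        cases i with
        | inl i => rfl
        | inr j =>
          have h6 : k < G.sh' j := hi
          change fl G.sh' G.ty' G.ρ' true k j * (θ * (a k / 4)) = 0
          unfold fl
          rw [if_neg (fun h7 => by omega), zero_mul]
      rw [hwd]
      dsimp only
      rw [h4, h5, add_zero]
  choose W hW0 hWT using hW
  have hWl : ∀ k θ i, W k θ 0 (Sum.inl i) = res G x₀ k (Sum.inl i) := fun k θ i => by
    rw [hW0, hwd]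
    change res G x₀ k (Sum.inl i) + 0 = _
    rw [add_zero]
  have hWr : ∀ k θ j, W k θ 0 (Sum.inr j) = fl G.sh' G.ty' G.ρ' true k j * (θ * (a k / 4)) :=
    fun k θ j => by
    rw [hW0, hwd]
    change res G x₀ k (Sum.inr j) + fl G.sh' G.ty' G.ρ' true k j * (θ * (a k / 4)) = _
    rw [hres0, zero_add]
  have hWen : ∀ k θ, G.en (W k θ 0) =
      G.en (res G x₀ k) + ENNReal.ofReal ((θ * (a k / 4)) ^ 2) := fun k θ => by
    rw [hW0, hwd]
    exact en_add G x₀ hJ k (θ * (a k / 4))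
  -- continuity in the parameter
  have hcont : ∀ k t, 0 ≤ t → ∀ i, Continuous fun θ => W k θ t i := by
    intro k t ht i
    refine h4 G k (W k) (hWT k) (fun i => ?_) t ht i
    cases i with
    | inl i =>
      simp only [hWl]
      exact continuous_const
    | inr j =>
      simp only [hWr]
      fun_prop
  have hPcont : ∀ k t, 0 ≤ t → ∀ n, Continuous fun θ => G.P n (W k θ t) := by
    intro k t ht n
    simp only [P_eq_sum]
    exact continuous_finsetSum _ fun j _ => (hcont k t ht (Sum.inr j)).const_mul _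
  -- the solutions with the parameter zero
  have hPz : ∀ k t, 0 ≤ t → ∀ n, G.P n (W k 0 t) = 0 := by
    intro k t ht n
    obtain ⟨A, hA0, hAT⟩ := h1 (G0 G) k (res G x₀ k) fun i hi => by
      unfold res
      exact if_neg (not_le.2 hi)
    have hAj : ∀ j, A 0 (Sum.inr j) = 0 := fun j => by rw [hA0, hres0]
    have h5 : W k 0 t = A t := by
      refine uniq h4 G k (W k 0) A (hWT k 0) (tr_of G hAT hAj) ?_ t ht
      rw [hA0]
      funext i
      cases i with
      | inl i => exact hWl k 0 i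
      | inr j => rw [hWr, hres0, zero_mul, mul_zero]
    rw [h5]
    exact P_zero G (inr_zero G hAT hAj t ht) n
  -- the parameters tend to infinity
  have hra : Tendsto (fun n => G.r n * a n) atTop atTop := by
    have hpos : 0 < G.r n₁ * a n₁ := mul_pos (hF.rp n₁) (hF.a0 n₁)
    have h4 : ∀ k, G.r n₁ * a n₁ * 4 ^ k ≤ G.r (k + n₁) * a (k + n₁) := by
      intro k
      induction k with
      | zero => simp
      | succ k ih =>
        have h5 := hF.mu (k + n₁) (Nat.le_add_left _ _)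
        rw [show k + 1 + n₁ = k + n₁ + 1 by ring]
        calc G.r n₁ * a n₁ * 4 ^ (k + 1) = 4 * (G.r n₁ * a n₁ * 4 ^ k) := by ring
          _ ≤ 4 * (G.r (k + n₁) * a (k + n₁)) := by gcongr
          _ ≤ _ := h5
    have h5 : Tendsto (fun k : ℕ => G.r n₁ * a n₁ * 4 ^ k) atTop atTop :=
      (tendsto_pow_atTop_atTop_of_one_lt (by norm_num : (1 : ℝ) < 4)).const_mul_atTop hpos
    exact (tendsto_add_atTop_iff_nat n₁).1 (tendsto_atTop_mono h4 h5)
  have hτ : ∀ᶠ n in atTop, Λ / (G.r n * a n) < η := by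
    have h4 : Tendsto (fun n => Λ / (G.r n * a n)) atTop (𝓝 0) :=
      Tendsto.div_atTop tendsto_const_nhds hra
    exact (tendsto_order.1 h4).2 η hη
  obtain ⟨m₀, hm₀⟩ := eventually_atTop.1 hτ
  obtain ⟨m, hm⟩ : ∃ m, m = max m₀ n₁ := ⟨_, rfl⟩
  have hmn : n₁ ≤ m := by rw [hm]; exact le_max_right _ _
  have hmm : m₀ ≤ m := by rw [hm]; exact le_max_left _ _
  obtain ⟨τ, hτd⟩ : ∃ τ : ℝ, τ = max (Λ / (G.r m * a m)) (Λ / (G.r (m + 1) * a (m + 1))) :=
    ⟨_, rfl⟩
  have hτη : τ < η := by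
    rw [hτd]
    exact max_lt (hm₀ m hmm) (hm₀ (m + 1) (by omega))
  -- the inverse cascade
  have hfire : ∀ k, m < k → ∃ n, (n = m ∨ n = m + 1) ∧ ∃ s ∈ Icc 0 τ, a n / 4 ≤ G.P n (W k 1 s) := by
    intro k hk
    have hM0 := hF.M0
    obtain ⟨n, hn, s, hs, hP⟩ := h3 G n₁ k M Λ a (W k 1) hF (by omega) (hWT k 1) (by
      rw [hWen, one_mul]
      have ha0 := hF.a0 k
      have ha1 := haM k
      calc G.en (res G x₀ k) + ENNReal.ofReal ((a k / 4) ^ 2)
          ≤ ENNReal.ofReal (M ^ 2 / 2) + ENNReal.ofReal (M ^ 2 / 16) := by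
            refine add_le_add ((en_res_le G x₀ k).trans hen) (ENNReal.ofReal_le_ofReal ?_)
            nlinarith
        _ = ENNReal.ofReal (M ^ 2 / 2 + M ^ 2 / 16) :=
            (ENNReal.ofReal_add (by positivity) (by positivity)).symm
        _ ≤ _ := ENNReal.ofReal_le_ofReal (by nlinarith [sq_nonneg M]))
      (fun n hn hnN => by
        refine (hZ n hn).trans_eq ?_
        unfold GS.Z ap
        refine tsum_congr fun i => ?_
        dsimp only
        rw [hWl]
        by_cases hi : G.sh i = n ∧ G.ty i = false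
        · have h7 : res G x₀ k (Sum.inl i) = x₀ (Sum.inl i) := by
            unfold res
            rw [if_pos]
            change G.sh i ≤ k
            rw [hi.1]
            exact hnN
          rw [h7]
        · unfold fl
          rw [if_neg hi, zero_mul, zero_mul])
      (fun j hj => by
        rw [hWr]
        unfold fl
        rw [if_neg (fun h7 => by omega), zero_mul])
      (fun j _ => by
        rw [hWr, one_mul])
      m hmn hk
    refine ⟨n, hn, s, ⟨hs.1, hs.2.trans ?_⟩, hP⟩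
    rw [hτd]
    rcases hn with rfl | rfl
    · exact le_max_left _ _
    · exact le_max_right _ _
  -- one shell, infinitely many levels
  obtain ⟨n, hnm, hfr⟩ : ∃ n, (n = m ∨ n = m + 1) ∧
      ∃ᶠ k in atTop, ∃ s ∈ Icc 0 τ, a n / 4 ≤ G.P n (W k 1 s) := by
    have h5 : ∀ᶠ k in atTop, (∃ s ∈ Icc 0 τ, a m / 4 ≤ G.P m (W k 1 s)) ∨
        (∃ s ∈ Icc 0 τ, a (m + 1) / 4 ≤ G.P (m + 1) (W k 1 s)) := by
      filter_upwards [eventually_gt_atTop m] with k hk
      obtain ⟨n, hn, hs⟩ := hfire k hk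
      rcases hn with rfl | rfl
      · exact Or.inl hs
      · exact Or.inr hs
    rcases Filter.frequently_or_distrib.1 h5.frequently with h6 | h6
    · exact ⟨m, Or.inl rfl, h6⟩
    · exact ⟨m + 1, Or.inr rfl, h6⟩
  obtain ⟨ψ₀, hψ₀, hψs⟩ := Filter.extraction_of_frequently_atTop hfr
  choose s₀ hs₀ hPs₀ using hψs
  obtain ⟨tt, htt, φ₁, hφ₁, hlim⟩ := isCompact_Icc.tendsto_subseq hs₀
  obtain ⟨ψ, hψd⟩ : ∃ ψ : ℕ → ℕ, ψ = ψ₀ ∘ φ₁ := ⟨_, rfl⟩
  obtain ⟨s, hsd⟩ : ∃ s : ℕ → ℝ, s = s₀ ∘ φ₁ := ⟨_, rfl⟩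
  have hψ : StrictMono ψ := by rw [hψd]; exact hψ₀.comp hφ₁
  have hs : ∀ j, s j ∈ Icc 0 τ := fun j => by rw [hsd]; exact hs₀ _
  have hPs : ∀ j, a n / 4 ≤ G.P n (W (ψ j) 1 (s j)) := fun j => by
    rw [hsd, hψd]
    exact hPs₀ _
  have hslim : Tendsto s atTop (𝓝 tt) := by rw [hsd]; exact hlim
  have ha0 := hF.a0 n
  -- the solutions
  have key : ∀ θ : ℝ, ∃ w : ℝ → G.I ⊕ G.J → ℝ, θ ∈ Icc (0 : ℝ) 1 →
      w 0 = x₀ ∧ G.LH w ∧ G.P n (w tt) = θ * (a n / 4) := by
    intro θ
    by_cases hθ : θ ∈ Icc (0 : ℝ) 1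
    swap
    · exact ⟨fun _ => x₀, fun h => absurd h hθ⟩
    have hiv : ∀ j, ∃ θ' ∈ Icc (0 : ℝ) 1, G.P n (W (ψ j) θ' (s j)) = θ * (a n / 4) := by
      intro j
      have h5 := intermediate_value_Icc (zero_le_one (α := ℝ))
        ((hPcont (ψ j) (s j) (hs j).1 n).continuousOn (s := Icc 0 1))
      have h6 : θ * (a n / 4) ∈ Icc (G.P n (W (ψ j) 0 (s j))) (G.P n (W (ψ j) 1 (s j))) := by
        rw [hPz (ψ j) (s j) (hs j).1 n]
        refine ⟨mul_nonneg hθ.1 (by positivity), le_trans ?_ (hPs j)⟩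
        have := hθ.2
        nlinarith
      obtain ⟨θ', hθ', he⟩ := h5 h6
      exact ⟨θ', hθ', he⟩
    choose θ' hθ' hPθ' using hiv
    obtain ⟨φ, w, hφ, hw0, hwLH, hwc⟩ := h2 G x₀ ψ (fun j => W (ψ j) (θ' j)) hψ.tendsto_atTop hD
      (fun j => hWT _ _) hen' (fun i => by
        cases i with
        | inl i =>
          simp only [hWl]
          refine tendsto_const_nhds.congr' ?_
          filter_upwards [hψ.tendsto_atTop.eventually (hres_ev (Sum.inl i))] with k hk
          exact hk.symm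
        | inr j =>
          simp only [hWr, hJ]
          refine tendsto_const_nhds.congr' ?_
          filter_upwards [hψ.tendsto_atTop.eventually (eventually_gt_atTop (G.sh' j))] with k hk
          unfold fl
          rw [if_neg (fun h7 => by omega), zero_mul]) (by
        simp only [hWen]
        have h5 : Tendsto (fun k => (θ' k * (a (ψ k) / 4)) ^ 2) atTop (𝓝 0) := by
          have h6 : Tendsto (fun k => (a (ψ k) / 4) ^ 2) atTop (𝓝 0) := by
            have := ((ha.comp hψ.tendsto_atTop).div_const 4).pow 2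
            simpa using this
          refine squeeze_zero (fun k => sq_nonneg _) (fun k => ?_) h6
          rw [mul_pow]
          have h7 : θ' k ^ 2 ≤ 1 := pow_le_one₀ (hθ' k).1 (hθ' k).2
          calc θ' k ^ 2 * (a (ψ k) / 4) ^ 2 ≤ 1 * (a (ψ k) / 4) ^ 2 :=
                mul_le_mul_of_nonneg_right h7 (sq_nonneg _)
            _ = _ := one_mul _
        have h6 := ENNReal.tendsto_ofReal h5
        rw [ENNReal.ofReal_zero] at h6
        have h7 := ((en_res_tendsto G x₀).comp hψ.tendsto_atTop).add h6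
        rwa [add_zero] at h7)
    refine ⟨w, fun _ => ⟨hw0, hwLH, ?_⟩⟩
    have h5 : ∀ i, Tendsto (fun k => W (ψ (φ k)) (θ' (φ k)) (s (φ k)) i) atTop (𝓝 (w tt i)) := by
      intro i
      have hwcont : ContinuousWithinAt (fun t => w t i) (Icc 0 τ) tt :=
        ((hwLH.ode i tt htt.1).continuousWithinAt).mono Icc_subset_Ici_self
      have h6 : Tendsto (fun k => s (φ k)) atTop (𝓝[Icc 0 τ] tt) :=
        tendsto_nhdsWithin_iff.2 ⟨hslim.comp hφ.tendsto_atTop, Eventually.of_forall fun k => hs _⟩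
      have h7 : Tendsto (fun k => w (s (φ k)) i) atTop (𝓝 (w tt i)) := hwcont.tendsto.comp h6
      rw [Metric.tendsto_atTop] at h7 ⊢
      intro δ hδ
      obtain ⟨K₁, hK₁⟩ := h7 (δ / 2) (half_pos hδ)
      obtain ⟨K₂, hK₂⟩ := eventually_atTop.1
        (Metric.tendstoUniformlyOn_iff.1 (hwc i τ) (δ / 2) (half_pos hδ))
      refine ⟨max K₁ K₂, fun k hk => ?_⟩
      have h8 := hK₁ k ((le_max_left _ _).trans hk)
      have h9 := hK₂ k ((le_max_right _ _).trans hk) (s (φ k)) (hs _)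
      rw [dist_comm] at h9
      calc dist (W (ψ (φ k)) (θ' (φ k)) (s (φ k)) i) (w tt i)
          ≤ dist (W (ψ (φ k)) (θ' (φ k)) (s (φ k)) i) (w (s (φ k)) i) +
            dist (w (s (φ k)) i) (w tt i) := dist_triangle _ _ _
        _ < δ / 2 + δ / 2 := add_lt_add h9 h8
        _ = δ := add_halves δ
    have h6 := P_tendsto G n (fun k => W (ψ (φ k)) (θ' (φ k)) (s (φ k))) (w tt) h5
    simp only [hPθ'] at h6
    exact tendsto_nhds_unique h6 tendsto_const_nhds
  choose w hw using key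
  refine ⟨tt, ⟨?_, htt.2.trans_lt hτη⟩, w, fun θ hθ => ⟨(hw θ hθ).1, (hw θ hθ).2.1⟩, ?_⟩
  · refine lt_of_le_of_ne htt.1 fun h0 => ?_
    obtain ⟨h5, -, h6⟩ := hw 1 ⟨zero_le_one, le_rfl⟩
    rw [← h0, h5, P_zero G hJ n] at h6
    linarith
  · intro θ₁ hθ₁ θ₂ hθ₂ he
    have h5 := (hw θ₁ hθ₁).2.2
    have h6 := (hw θ₂ hθ₂).2.2
    have h7 : w θ₁ tt = w θ₂ tt := he
    rw [h7, h6] at h5
    exact (mul_right_cancel₀ (by positivity) h5).symm

end Pool.Agent.K1H39.NU
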