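import Pool.Agent.K1H54.NU.Stm

/-! Project NU, pieces LIM and GLUE. -/

open Set Filter Topology MeasureTheory
open scoped ENNReal

set_option autoImplicit false

namespace Pool.Agent.K1H39.NU

open Pool.Agent.K1H54.NU

theorem ap_eq {I : Type} (sh : I → ℕ) (ty : I → Bool) (ρ : ℕ → ℕ) (b : Bool) (n : ℕ)
    (hf : {i | sh i = n ∧ ty i = b}.Finite) (z : I → ℝ) :
    ap sh ty ρ b n z = ∑ i ∈ hf.toFinset, fl sh ty ρ b n i * z i := by
  unfold ap
  apply tsum_eq_sum
  intro i hi
  rw [Set.Finite.mem_toFinset] at hi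
  have hi' : ¬ (sh i = n ∧ ty i = b) := hi
  unfold fl
  rw [if_neg hi', zero_mul]

@[fun_prop]
theorem cont_Y (G : GS) (n : ℕ) : Continuous (G.Y n) := by
  have : G.Y n = fun x => ∑ i ∈ (G.fin n true).toFinset, fl G.sh G.ty G.ρ true n i * x (Sum.inl i) := by
    funext x
    exact ap_eq _ _ _ _ _ (G.fin n true) _
  rw [this]
  fun_prop

@[fun_prop]
theorem cont_Z (G : GS) (n : ℕ) : Continuous (G.Z n) := by
  have : G.Z n = fun x => ∑ i ∈ (G.fin n false).toFinset, fl G.sh G.ty G.ρ false n i * x (Sum.inl i) := by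
    funext x
    exact ap_eq _ _ _ _ _ (G.fin n false) _
  rw [this]
  fun_prop

@[fun_prop]
theorem cont_P (G : GS) (n : ℕ) : Continuous (G.P n) := by
  have : G.P n = fun x => ∑ i ∈ (G.fin' n true).toFinset,
      fl G.sh' G.ty' G.ρ' true n i * x (Sum.inr i) := by
    funext x
    exact ap_eq _ _ _ _ _ (G.fin' n true) _
  rw [this]
  fun_prop

theorem cont_vf (G : GS) (i : G.I ⊕ G.J) : Continuous fun x => G.vf x i := by
  cases i with
  | inl i =>
    simp only [GS.vf]
    split_ifs <;> fun_prop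
  | inr j =>
    simp only [GS.vf]
    split_ifs <;> fun_prop

/-- The right-hand side of the system. -/
noncomputable def rhs (G : GS) (x : G.I ⊕ G.J → ℝ) (i : G.I ⊕ G.J) : ℝ :=
  -(G.D i * x i) + G.vf x i

theorem cont_rhs (G : GS) (i : G.I ⊕ G.J) : Continuous fun x => rhs G x i := by
  unfold rhs
  have := cont_vf G i
  fun_prop

/-- Lower semicontinuity of the energy. -/
theorem en_le_of_tendsto (G : GS) {α : Type} {l : Filter α} [l.NeBot] {x : α → G.I ⊕ G.J → ℝ}
    {y : G.I ⊕ G.J → ℝ} (h : ∀ i, Tendsto (fun t => x t i) l (𝓝 (y i))) {C K : ℝ≥0∞}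
    (hC : ∀ᶠ t in l, G.en (x t) + K ≤ C) : G.en y + K ≤ C := by
  unfold GS.en
  rw [ENNReal.tsum_eq_iSup_sum, ENNReal.iSup_add]
  refine iSup_le fun S => ?_
  have h1 : Tendsto (fun t => ∑ i ∈ S, ENNReal.ofReal (x t i ^ 2) + K) l
      (𝓝 (∑ i ∈ S, ENNReal.ofReal (y i ^ 2) + K)) := by
    refine Tendsto.add ?_ tendsto_const_nhds
    exact tendsto_finsetSum _ fun i _ => ENNReal.tendsto_ofReal ((h i).pow 2)
  refine le_of_tendsto h1 ?_
  filter_upwards [hC] with t ht
  refine le_trans ?_ ht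
  gcongr
  exact ENNReal.sum_le_tsum S

theorem abs_le_of_en (G : GS) {x : G.I ⊕ G.J → ℝ} {E : ℝ≥0∞} (hE : E ≠ ⊤) (h : G.en x ≤ E)
    (i : G.I ⊕ G.J) : |x i| ≤ √E.toReal := by
  have h1 : ENNReal.ofReal (x i ^ 2) ≤ E :=
    (ENNReal.le_tsum (f := fun i => ENNReal.ofReal (x i ^ 2)) i).trans h
  have h2 : x i ^ 2 ≤ E.toReal := (ENNReal.ofReal_le_iff_le_toReal hE).1 h1
  exact Real.abs_le_sqrt h2

theorem t_LIM : S_LIM := by
  intro G T x hT hode h0 hen
  have hbd : ∀ t ∈ Ico 0 T, ∀ i, |x t i| ≤ √(G.en (x 0)).toReal := fun t ht i =>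
    abs_le_of_en G h0 (hen t ht) i
  set K := √(G.en (x 0)).toReal with hK
  have hext : ∀ i, ∃ y : ℝ, Tendsto (fun t => x t i) (𝓝[<] T) (𝓝 y) := by
    intro i
    -- the right-hand side is bounded on the box
    have hcomp : IsCompact (Set.univ.pi fun _ : G.I ⊕ G.J => Icc (-K) K) :=
      isCompact_univ_pi fun _ => isCompact_Icc
    obtain ⟨L, hL⟩ := hcomp.exists_bound_of_continuousOn (cont_rhs G i).continuousOn
    have hL' : ∀ t ∈ Ico 0 T, ‖rhs G (x t) i‖ ≤ L := fun t ht =>
      hL _ fun j _ => abs_le.1 (hbd t ht j)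
    have hL0 : 0 ≤ L := (norm_nonneg _).trans (hL' 0 ⟨le_rfl, hT⟩)
    have hlip : LipschitzOnWith L.toNNReal (fun t => x t i) (Ico 0 T) := by
      refine (convex_Ico 0 T).lipschitzOnWith_of_nnnorm_hasDerivWithin_le
        (f' := fun t => rhs G (x t) i) (fun t ht => hode i t ht) fun t ht => ?_
      rw [← NNReal.coe_le_coe, coe_nnnorm, Real.coe_toNNReal _ hL0]
      exact hL' t ht
    obtain ⟨g, hg, hgx⟩ := hlip.extend_real
    refine ⟨g T, ?_⟩
    have h1 : Tendsto g (𝓝[<] T) (𝓝 (g T)) := hg.continuous.continuousAt.tendsto.mono_left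
      nhdsWithin_le_nhds
    refine h1.congr' ?_
    filter_upwards [Ico_mem_nhdsLT hT] with t ht
    exact (hgx ht).symm
  choose y hy using hext
  have hpi : Tendsto x (𝓝[<] T) (𝓝 y) := tendsto_pi_nhds.2 hy
  refine ⟨y, hy, ?_, fun n => ((cont_Z G n).tendsto y).comp hpi⟩
  have := en_le_of_tendsto G hy (C := G.en (x 0)) (K := 0) (by
    filter_upwards [Ico_mem_nhdsLT hT] with t ht
    rw [add_zero]
    exact hen t ht)
  rwa [add_zero] at this

/-- The glued function. -/
noncomputable def gl (G : GS) (T : ℝ) (x w : ℝ → G.I ⊕ G.J → ℝ) (t : ℝ) : G.I ⊕ G.J → ℝ :=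
  if t < T then x t else w (t - T)

theorem gl_lt {G : GS} {T : ℝ} {x w : ℝ → G.I ⊕ G.J → ℝ} {t : ℝ} (h : t < T) :
    gl G T x w t = x t := if_pos h

theorem gl_ge {G : GS} {T : ℝ} {x w : ℝ → G.I ⊕ G.J → ℝ} {t : ℝ} (h : T ≤ t) :
    gl G T x w t = w (t - T) := if_neg (not_lt.2 h)

/-- translation of integrals -/
theorem lint_shift (T s t : ℝ) (f : ℝ → ℝ≥0∞) :
    ∫⁻ τ in Ioc s t, f (τ - T) = ∫⁻ τ in Ioc (s - T) (t - T), f τ := by
  have h := (measurePreserving_add_right volume (-T)).setLIntegral_comp_preimage_emb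
    (measurableEmbedding_addRight (-T)) f (Ioc (s - T) (t - T))
  rw [← h]
  have : (fun x => x + -T) ⁻¹' Ioc (s - T) (t - T) = Ioc s t := by
    ext x
    simp only [mem_preimage, mem_Ioc]
    constructor <;> rintro ⟨h1, h2⟩ <;> constructor <;> linarith
  rw [this]
  simp only [sub_eq_add_neg]

theorem EI_late (G : GS) (T : ℝ) (x w : ℝ → G.I ⊕ G.J → ℝ) {s : ℝ} (hs : T ≤ s)
    (h : G.EI w (s - T)) : G.EI (gl G T x w) s := by
  intro t hst
  have h1 := h (t - T) (by linarith)
  rw [gl_ge (hs.trans hst), gl_ge hs]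
  have h2 : ∫⁻ τ in Ioc s t, G.ds (gl G T x w τ) = ∫⁻ τ in Ioc (s - T) (t - T), G.ds (w τ) := by
    rw [← lint_shift]
    refine setLIntegral_congr_fun measurableSet_Ioc fun τ hτ => ?_
    rw [gl_ge (hs.trans hτ.1.le)]
  rw [h2]
  exact h1

theorem t_GLUE : S_GLUE := by
  intro G T x w hT hode h0 hen hlim hw
  show G.LH (gl G T x w)
  -- the energy inequality from times s < T
  have hB : ∀ s ∈ Ico 0 T, G.en (w 0) + 2 * ∫⁻ τ in Ioo s T, G.ds (x τ) ≤ G.en (x s) := by
    intro s hs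
    have h1 : ∀ t₀ ∈ Ico s T, G.en (w 0) + 2 * ∫⁻ τ in Ioc s t₀, G.ds (x τ) ≤ G.en (x s) := by
      intro t₀ ht₀
      refine en_le_of_tendsto G hlim ?_
      filter_upwards [Ico_mem_nhdsLT ht₀.2] with t ht
      refine le_trans ?_ (hen s hs t ⟨ht₀.1.trans ht.1, ht.2⟩)
      gcongr
      exact ht.1
    obtain ⟨v, hv1, hv2, hv3⟩ := exists_seq_strictMono_tendsto' hs.2
    have hU : Ioo s T = ⋃ n, Ioc s (v n) := by
      ext τ
      simp only [mem_Ioo, mem_iUnion, mem_Ioc]
      constructor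
      · rintro ⟨a1, a2⟩
        obtain ⟨n, hn⟩ := (hv3.eventually (eventually_gt_nhds a2)).exists
        exact ⟨n, a1, hn.le⟩
      · rintro ⟨n, a1, a2⟩
        exact ⟨a1, a2.trans_lt (hv2 n).2⟩
    rw [hU, setLIntegral_iUnion_of_directed _ (directed_of_isDirected_le fun i j hij =>
      Ioc_subset_Ioc_right (hv1.monotone hij)), ENNReal.mul_iSup, ENNReal.add_iSup]
    exact iSup_le fun n => h1 _ ⟨(hv2 n).1.le, (hv2 n).2⟩
  have hA : ∀ s ∈ Ico 0 T, G.EI (gl G T x w) s := by
    intro s hs t hst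
    rcases lt_or_ge t T with ht | ht
    · rw [gl_lt ht, gl_lt hs.2]
      have h2 : ∫⁻ τ in Ioc s t, G.ds (gl G T x w τ) = ∫⁻ τ in Ioc s t, G.ds (x τ) :=
        setLIntegral_congr_fun measurableSet_Ioc fun τ hτ => by
          rw [gl_lt (hτ.2.trans_lt ht)]
      rw [h2]
      exact hen s hs t ⟨hst, ht⟩
    · rw [gl_ge ht, gl_lt hs.2]
      have hsplit : Ioc s t = Ioc s T ∪ Ioc T t := (Ioc_union_Ioc_eq_Ioc hs.2.le ht).symm
      have h2 : ∫⁻ τ in Ioc s T, G.ds (gl G T x w τ) = ∫⁻ τ in Ioo s T, G.ds (x τ) := by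
        rw [← setLIntegral_congr Ioo_ae_eq_Ioc]
        exact setLIntegral_congr_fun measurableSet_Ioo fun τ hτ => by rw [gl_lt hτ.2]
      have h3 : ∫⁻ τ in Ioc T t, G.ds (gl G T x w τ) = ∫⁻ τ in Ioc 0 (t - T), G.ds (w τ) := by
        have := lint_shift T T t (fun τ => G.ds (w τ))
        rw [sub_self] at this
        rw [← this]
        refine setLIntegral_congr_fun measurableSet_Ioc fun τ hτ => ?_
        rw [gl_ge hτ.1.le]
      rw [hsplit, lintegral_union measurableSet_Ioc (Ioc_disjoint_Ioc_of_le le_rfl), h2, h3, mul_add]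
      have h4 := hw.e0 (t - T) (by linarith)
      have h5 := hB s hs
      generalize (∫⁻ τ in Ioo s T, G.ds (x τ)) = A at h5 ⊢
      generalize (∫⁻ τ in Ioc 0 (t - T), G.ds (w τ)) = B at h4 ⊢
      calc G.en (w (t - T)) + (2 * A + 2 * B) = (G.en (w (t - T)) + 2 * B) + 2 * A := by ring
        _ ≤ G.en (w 0) + 2 * A := by gcongr
        _ ≤ G.en (x s) := h5
  refine ⟨?_, ?_, ?_, ?_⟩
  · -- the equation
    intro i t ht
    rcases lt_trichotomy t T with h | h | h
    · have h1 := hode i t ⟨ht, h⟩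
      have h2 : HasDerivWithinAt (fun τ => x τ i) (-(G.D i * x t i) + G.vf (x t) i) (Ici 0) t := by
        refine h1.mono_of_mem_nhdsWithin ?_
        rw [← Ici_inter_Iio]
        exact inter_mem_nhdsWithin _ (Iio_mem_nhds h)
      rw [gl_lt h]
      refine h2.congr_of_eventuallyEq ?_ (by simp only [gl_lt h])
      filter_upwards [mem_nhdsWithin_of_mem_nhds (Iio_mem_nhds h)] with τ hτ
      simp only [gl_lt hτ]
    · subst h
      rw [gl_ge le_rfl, sub_self]
      -- left derivative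
      have hl : HasDerivWithinAt (fun τ => gl G t x w τ i) (-(G.D i * w 0 i) + G.vf (w 0) i)
          (Iic t) t := by
        have hd : ∀ τ ∈ Ioo 0 t, HasDerivAt (fun τ => gl G t x w τ i) (rhs G (x τ) i) τ := by
          intro τ hτ
          have h1 := (hode i τ ⟨hτ.1.le, hτ.2⟩).hasDerivAt (Ico_mem_nhds hτ.1 hτ.2)
          refine h1.congr_of_eventuallyEq ?_
          filter_upwards [Iio_mem_nhds hτ.2] with σ hσ
          simp only [gl_lt hσ]
        have hpi : Tendsto x (𝓝[<] t) (𝓝 (w 0)) := tendsto_pi_nhds.2 hlim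
        refine hasDerivWithinAt_Iic_of_tendsto_deriv (s := Ioo 0 t)
          (fun τ hτ => (hd τ hτ).differentiableAt.differentiableWithinAt) ?_ (Ioo_mem_nhdsLT hT) ?_
        · show Tendsto _ _ (𝓝 (gl G t x w t i))
          rw [gl_ge le_rfl, sub_self]
          refine Tendsto.congr' ?_ ((hlim i).mono_left (nhdsWithin_mono _ Ioo_subset_Iio_self))
          filter_upwards [self_mem_nhdsWithin] with τ hτ
          rw [gl_lt hτ.2]
        · have h5 := ((cont_rhs G i).tendsto (w 0)).comp hpi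
          refine h5.congr' ?_
          filter_upwards [Ioo_mem_nhdsLT hT] with τ hτ
          exact (hd τ hτ).deriv.symm
      -- right derivative
      have hr : HasDerivWithinAt (fun τ => gl G t x w τ i) (-(G.D i * w 0 i) + G.vf (w 0) i)
          (Ici t) t := by
        have h1 := hw.ode i 0 le_rfl
        have h2 : HasDerivWithinAt (fun τ => w (τ - t) i) (-(G.D i * w 0 i) + G.vf (w 0) i)
            (Ici t) t := by
          have h3 : HasDerivWithinAt (fun τ : ℝ => τ - t) 1 (Ici t) t :=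
            (hasDerivWithinAt_id t (Ici t)).sub_const t
          have h4 := HasDerivWithinAt.scomp_of_eq t (g₁ := fun τ => w τ i) h1 h3
            (fun τ hτ => by simpa using hτ) (by simp)
          rw [one_smul] at h4
          exact h4
        refine h2.congr (fun τ hτ => ?_) ?_
        · simp only [gl_ge (mem_Ici.1 hτ)]
        · simp only [gl_ge le_rfl]
      have hu := hl.union hr
      rw [Iic_union_Ici] at hu
      exact hu.mono (subset_univ _)
    · have h1 := hw.ode i (t - T) (by linarith)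
      rw [gl_ge h.le]
      have h2 : HasDerivWithinAt (fun τ => w (τ - T) i)
          (-(G.D i * w (t - T) i) + G.vf (w (t - T)) i) (Ici T) t := by
        have h3 : HasDerivWithinAt (fun τ : ℝ => τ - T) 1 (Ici T) t :=
          (hasDerivWithinAt_id t (Ici T)).sub_const T
        have h4 := HasDerivWithinAt.scomp_of_eq t (g₁ := fun τ => w τ i) h1 h3
          (fun τ hτ => by simpa using hτ) rfl
        rw [one_smul] at h4
        exact h4
      have h3 := h2.hasDerivAt (Ici_mem_nhds h)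
      have h4 : HasDerivAt (fun τ => gl G T x w τ i)
          (-(G.D i * w (t - T) i) + G.vf (w (t - T)) i) t := by
        refine h3.congr_of_eventuallyEq ?_
        filter_upwards [Ici_mem_nhds h] with τ hτ
        simp only [gl_ge (mem_Ici.1 hτ)]
      exact h4.hasDerivWithinAt
  · rw [gl_lt hT]
    exact h0
  · exact hA 0 ⟨le_rfl, hT⟩
  · rw [ae_restrict_iff' measurableSet_Ioi]
    have h1 := hw.es
    rw [ae_restrict_iff' measurableSet_Ioi] at h1
    have h2 := (measurePreserving_add_right volume (-T)).quasiMeasurePreserving.ae h1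
    filter_upwards [h2] with s hs hs0
    rcases lt_trichotomy s T with h | h | h
    · exact hA s ⟨(mem_Ioi.1 hs0).le, h⟩
    · apply EI_late G T x w h.ge
      rw [h, sub_self]
      exact hw.e0
    · apply EI_late G T x w h.le
      rw [sub_eq_add_neg]
      apply hs
      rw [mem_Ioi]
      linarith

end Pool.Agent.K1H39.NU
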